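import Pool.Agent.V5helper96.CA.Defs
import Pool.Agent.V5helper96.CA.Red

/-!
Reversible three-state number-conserving cellular automata on `ℤ^d` with the von Neumann
neighbourhood are the identity or unit shifts, in every dimension.

Proof in short. The neighbourhood `N` has the property that a nonzero vector is a difference of two
elements of `N` in at most two ways, and the two ways are exchanged by a point reflection. Hence, by
conservation, the automaton is determined by its action on configurations with at most two nonzero
cells, and two cells at distance `2 e_i` do not interact. The possible interactions of two cells
(of mass 1 or 2) are then excluded one after the other, since each of them makes two different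
finite configurations with at most three nonzero cells have the same image, or creates a state
above 2.
-/

set_option autoImplicit false

namespace Pool.Agent.V5helper96.Withdrawn.AllDimensions

open Pool.Agent.V5helper96.CA

/-- In every dimension, a reversible number-conserving cellular automaton with state set
`{0, 1, 2}` and the von Neumann neighbourhood is the identity or a unit shift. -/
theorem result (d : ℕ) (f : (nbhd d → Fin 3) → Fin 3)
    (hcons : NumberConserving (globalMap f)) (hrev : Function.Bijective (globalMap f)) :
    ∃ u ∈ nbhd d, ∀ x v, globalMap f x v = x (v + u) := by
  obtain ⟨u, hu, h⟩ := final (sys f hcons hrev.1)
  exact ⟨u, (nb_finite d).mem_toFinset.1 hu, h⟩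

end Pool.Agent.V5helper96.Withdrawn.AllDimensions
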